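import Pool.Agent.W254.HP.Rel

/-!
# The square of the dimension bounds the support of two-term relations

`V ⊆ Lt` of dimension `m`: all solutions `x, y ∈ Lt` of `x v' = y v`, `v, v' ∈ V` independent, lie in one
space of dimension at most `m ^ 2`.
-/

set_option autoImplicit false

namespace Pool.Agent.V8H74.FE

open Module Finset
open Pool.Agent.H301R2.SSE (QB mem_QB Lt)

/-- coefficients dual to two independent vectors -/
theorem exists_dual_pair {κ : Type*} [Field κ] {m : ℕ} (a b : Fin m → κ)
    (h : LinearIndependent κ ![a, b]) : ∃ w : Fin m → κ, ∑ i, w i * b i = 1 ∧ ∑ i, w i * a i = 0 := by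
  classical
  have hb : b ∉ Submodule.span κ {a} := by
    intro hb
    rw [Submodule.mem_span_singleton] at hb
    obtain ⟨c, hc⟩ := hb
    rw [LinearIndependent.pair_iff] at h
    have := h c (-1) (by rw [hc]; simp)
    exact one_ne_zero (neg_eq_zero.1 this.2)
  obtain ⟨f, hf, hfa⟩ := Submodule.exists_dual_map_eq_bot_of_notMem hb inferInstance
  have hfa' : f a = 0 := by
    have : f a ∈ (Submodule.span κ {a}).map f :=
      Submodule.mem_map_of_mem (Submodule.mem_span_singleton_self a)
    rw [hfa] at this
    exact (Submodule.mem_bot κ).1 this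
  have key : ∀ v : Fin m → κ, f v = ∑ i, f (fun j => if i = j then 1 else 0) * v i := by
    intro v
    rw [LinearMap.pi_apply_eq_sum_univ f v]
    exact Finset.sum_congr rfl fun i _ => by rw [smul_eq_mul, mul_comm]
  refine ⟨fun i => (f b)⁻¹ * f (fun j => if i = j then 1 else 0), ?_, ?_⟩
  · simp only [mul_assoc]
    rw [← Finset.mul_sum, ← key b, inv_mul_cancel₀ hf]
  · simp only [mul_assoc]
    rw [← Finset.mul_sum, ← key a, hfa', mul_zero]

/-- a dual functional for a member of an independent family -/
theorem exists_dual_fam {κ C : Type*} [Field κ] [AddCommGroup C] [Module κ C] {ι : Type*}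
    [DecidableEq ι] (e : ι → C) (he : LinearIndependent κ e) (j : ι) :
    ∃ f : C →ₗ[κ] κ, ∀ i, f (e i) = if i = j then 1 else 0 := by
  classical
  obtain ⟨g, hg⟩ := LinearMap.exists_leftInverse_of_injective
    (Finsupp.linearCombination κ e) (LinearMap.ker_eq_bot.2 he)
  refine ⟨(Finsupp.lapply j).comp g, fun i => ?_⟩
  have h1 : g (e i) = Finsupp.single i 1 := by
    have h2 := LinearMap.congr_fun hg (Finsupp.single i 1)
    simpa [Finsupp.linearCombination_single] using h2
  rw [LinearMap.comp_apply, h1, Finsupp.lapply_apply, Finsupp.single_apply]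

/-- the alternating relations -/
def skew {m : ℕ} (e : Fin m → ℂ) (p : (j : Fin m) × Fin j.val) : Fin m → ℂ := fun r =>
  if r.val = p.2.val then e p.1 else if r = p.1 then
    - e ⟨p.2.val, p.2.isLt.trans p.1.isLt⟩ else 0

theorem skew_rel {m : ℕ} (e : Fin m → ℂ) (p : (j : Fin m) × Fin j.val) :
    ∑ r, e r * skew e p r = 0 := by
  classical
  have h1 : ∀ r : Fin m, e r * skew e p r =
      (if r = ⟨p.2.val, p.2.isLt.trans p.1.isLt⟩ then e r * e p.1 else 0) +
      (if r = p.1 then - (e r * e ⟨p.2.val, p.2.isLt.trans p.1.isLt⟩) else 0) := by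
    intro r
    unfold skew
    by_cases h : r.val = p.2.val
    · have h2 : r = ⟨p.2.val, p.2.isLt.trans p.1.isLt⟩ := Fin.ext h
      have h3 : r ≠ p.1 := by
        intro h3
        have := p.2.isLt
        rw [← h, h3] at this
        exact lt_irrefl _ this
      rw [if_pos h, if_pos h2, if_neg h3, add_zero]
    · have h2 : r ≠ ⟨p.2.val, p.2.isLt.trans p.1.isLt⟩ := fun h2 => h (by rw [h2])
      rw [if_neg h, if_neg h2, zero_add]
      split_ifs
      · ring
      · ring
  rw [Finset.sum_congr rfl fun r _ => h1 r, Finset.sum_add_distrib, Finset.sum_ite_eq' Finset.univ,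
    Finset.sum_ite_eq' Finset.univ]
  simp only [Finset.mem_univ, if_true]
  ring

theorem skew_indep {m : ℕ} (e : Fin m → ℂ) (he : LinearIndependent QB e) :
    LinearIndependent QB (skew e) := by
  classical
  rw [Fintype.linearIndependent_iff]
  intro c hc q
  obtain ⟨f, hf⟩ := exists_dual_fam e he q.1
  have h1 := congrArg f (congrFun hc ⟨q.2.val, q.2.isLt.trans q.1.isLt⟩)
  rw [Finset.sum_apply, map_sum, Pi.zero_apply, map_zero] at h1
  rw [Finset.sum_eq_single q] at h1
  · rw [Pi.smul_apply, map_smul] at h1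
    unfold skew at h1
    rw [if_pos rfl, hf, if_pos rfl, smul_eq_mul, mul_one] at h1
    exact h1
  · intro p _ hpq
    rw [Pi.smul_apply, map_smul]
    unfold skew
    by_cases h : q.2.val = p.2.val
    · rw [if_pos h, hf, if_neg, smul_zero]
      intro h2
      apply hpq
      obtain ⟨p1, p2⟩ := p
      obtain ⟨q1, q2⟩ := q
      simp only at h2 h
      subst h2
      congr 1
      exact Fin.ext h.symm
    · rw [if_neg h]
      split_ifs with h2
      · rw [map_neg, hf, if_neg, neg_zero, smul_zero]
        intro h3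
        have h4 := congrArg Fin.val h3
        have h5 := congrArg Fin.val h2
        simp only at h4 h5
        have h6 := p.2.isLt
        have h7 := q.2.isLt
        omega
      · rw [map_zero, smul_zero]
  · intro h
    exact absurd (Finset.mem_univ _) h

theorem card_pairs (m : ℕ) : Fintype.card ((j : Fin m) × Fin j.val) * 2 = m * (m - 1) := by
  rw [Fintype.card_sigma]
  simp only [Fintype.card_fin]
  rw [Fin.sum_univ_eq_sum_range (fun i => i) m, Finset.sum_range_id_mul_two]

/-- **Two-term relations.** -/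
theorem hull (V : Submodule QB ℂ) [FiniteDimensional QB V] (hV : V ≤ Lt) :
    ∃ F : Submodule QB ℂ, V ≤ F ∧ F ≤ Lt ∧ FiniteDimensional QB F ∧
      finrank QB F ≤ finrank QB V ^ 2 ∧
      ∀ x ∈ Lt, ∀ y ∈ Lt, ∀ v ∈ V, ∀ v' ∈ V, LinearIndependent QB ![v, v'] → x * v' = y * v →
        x ∈ F ∧ y ∈ F := by
  classical
  set m := finrank QB V with hm
  let b := Module.finBasis QB V
  let e : Fin m → ℂ := fun i => ((b i : V) : ℂ)
  have he : LinearIndependent QB e := b.linearIndependent.map' V.subtype V.ker_subtype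
  have heV : ∀ i, e i ∈ V := fun i => (b i).2
  -- the set of the two-term relations
  let S : Set (Fin m → ℂ) := {ℓ | ∃ x ∈ Lt, ∃ y ∈ Lt, ∃ a c : Fin m → QB,
    LinearIndependent QB ![a, c] ∧ (ℓ = fun i => c i • x - a i • y) ∧ ∑ i, e i * ℓ i = 0}
  let VV : Submodule QB (Fin m → ℂ) := Submodule.pi Set.univ (fun _ => V)
  obtain ⟨T, hTS, hTspan, hTind⟩ := exists_linearIndependent QB (VV.mkQ '' S)
  choose lift hliftS hlift using fun t : T => hTS t.2
  -- bound for the number of elements of `T`
  have hbound : ∀ (n : ℕ) (g : Fin n → T), Function.Injective g → 2 * n ≤ m * (m - 1) := by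
    intro n g hg
    let fam : ((j : Fin m) × Fin j.val) ⊕ Fin n → (Fin m → ℂ) :=
      Sum.elim (skew e) (fun k => lift (g k))
    have hskV : ∀ p, skew e p ∈ VV := by
      intro p
      rw [Submodule.mem_pi]
      intro r _
      unfold skew
      split_ifs
      · exact heV _
      · exact V.neg_mem (heV _)
      · exact V.zero_mem
    have hfam : LinearIndependent QB fam := by
      rw [Fintype.linearIndependent_iff]
      intro c hc
      rw [Fintype.sum_sum_type] at hc
      simp only [fam, Sum.elim_inl, Sum.elim_inr] at hc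
      have h1 := congrArg VV.mkQ hc
      rw [map_add, map_zero, map_sum, map_sum] at h1
      have h2 : ∑ p, VV.mkQ (c (Sum.inl p) • skew e p) = 0 := by
        refine Finset.sum_eq_zero fun p _ => ?_
        rw [map_smul, Submodule.mkQ_apply, (Submodule.Quotient.mk_eq_zero VV).2 (hskV p), smul_zero]
      rw [h2, zero_add] at h1
      have h3 : ∀ k, c (Sum.inr k) = 0 := by
        have h4 := hTind.comp g hg
        rw [Fintype.linearIndependent_iff] at h4
        refine h4 (fun k => c (Sum.inr k)) ?_
        rw [← h1]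
        refine Finset.sum_congr rfl fun k _ => ?_
        rw [map_smul, hlift]
        rfl
      have h5 : ∑ p, c (Sum.inl p) • skew e p = 0 := by
        rw [← hc]
        simp [h3]
      have h6 := Fintype.linearIndependent_iff.1 (skew_indep e he) (fun p => c (Sum.inl p)) h5
      rintro (p | k)
      · exact h6 p
      · exact h3 k
    have h7 := Pool.Agent.W254.HP.hyperplane' m e (fun i p => fam p i) he ?_ ?_ ?_
    · rw [Fintype.card_sum, Fintype.card_fin] at h7
      have h8 := card_pairs m
      omega
    · rintro i (p | k)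
      · exact hV (Submodule.mem_pi.1 (hskV p) i (Set.mem_univ _))
      · obtain ⟨x, hx, y, hy, a, c, -, hℓ, -⟩ := hliftS (g k)
        simp only [fam, Sum.elim_inr]
        rw [hℓ]
        exact Lt.sub_mem (Lt.smul_mem _ hx) (Lt.smul_mem _ hy)
    · rintro (p | k)
      · exact skew_rel e p
      · obtain ⟨x, hx, y, hy, a, c, -, -, h0⟩ := hliftS (g k)
        exact h0
    · exact hfam
  have hTfin : Finite T := by
    by_contra hinf
    rw [not_finite_iff_infinite] at hinf
    have h1 := hbound (m * (m - 1) + 1)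
      (fun k => (Infinite.natEmbedding T) k.val)
      (fun i j h => Fin.ext ((Infinite.natEmbedding T).injective h))
    omega
  have := Fintype.ofFinite T
  have hTcard : 2 * Fintype.card T ≤ m * (m - 1) :=
    hbound _ (Fintype.equivFin T).symm (Fintype.equivFin T).symm.injective
  choose X hX Y hY A C hAC hℓ h0 using hliftS
  let F : Submodule QB ℂ := V ⊔ Submodule.span QB (Set.range (Sum.elim X Y))
  have hFfin : FiniteDimensional QB (Submodule.span QB (Set.range (Sum.elim X Y))) :=
    FiniteDimensional.span_of_finite QB (Set.finite_range _)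
  have hliftF : ∀ t i, lift t i ∈ F := by
    intro t i
    rw [hℓ t]
    refine F.sub_mem (F.smul_mem _ ?_) (F.smul_mem _ ?_)
    · exact Submodule.mem_sup_right (Submodule.subset_span ⟨Sum.inl t, rfl⟩)
    · exact Submodule.mem_sup_right (Submodule.subset_span ⟨Sum.inr t, rfl⟩)
  refine ⟨F, le_sup_left, ?_, inferInstance, ?_, ?_⟩
  · refine sup_le hV ?_
    rw [Submodule.span_le]
    rintro _ ⟨(t | t), rfl⟩
    · exact hX t
    · exact hY t
  · have h1 : finrank QB F ≤ finrank QB V +
        finrank QB (Submodule.span QB (Set.range (Sum.elim X Y))) := Submodule.finrank_add_le_finrank_add_finrank _ _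
    have h2 : finrank QB (Submodule.span QB (Set.range (Sum.elim X Y))) ≤ 2 * Fintype.card T := by
      have h3 := finrank_range_le_card (R := QB) (Sum.elim X Y)
      rw [Set.finrank, Fintype.card_sum] at h3
      omega
    have h3 : m + m * (m - 1) = m ^ 2 := by
      rcases Nat.eq_zero_or_pos m with h | h
      · rw [h]; rfl
      · obtain ⟨k, hk⟩ : ∃ k, m = k + 1 := ⟨m - 1, by omega⟩
        rw [hk, Nat.add_sub_cancel]; ring
    omega
  · intro x hx y hy v hv v' hv' hind hxy
    -- coordinates
    let a : Fin m → QB := fun i => b.repr ⟨v, hv⟩ i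
    let c : Fin m → QB := fun i => b.repr ⟨v', hv'⟩ i
    have hva : ∑ i, a i • e i = v := by
      have h1 := congrArg (fun z : V => (z : ℂ)) (b.sum_repr ⟨v, hv⟩)
      simpa only [Submodule.coe_sum, Submodule.coe_smul] using h1
    have hvc : ∑ i, c i • e i = v' := by
      have h1 := congrArg (fun z : V => (z : ℂ)) (b.sum_repr ⟨v', hv'⟩)
      simpa only [Submodule.coe_sum, Submodule.coe_smul] using h1
    have hac : LinearIndependent QB ![a, c] := by
      rw [LinearIndependent.pair_iff]
      intro s t hst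
      rw [LinearIndependent.pair_iff] at hind
      refine hind s t ?_
      rw [← hva, ← hvc, Finset.smul_sum, Finset.smul_sum, ← Finset.sum_add_distrib]
      refine Finset.sum_eq_zero fun i _ => ?_
      have h1 := congrFun hst i
      simp only [Pi.add_apply, Pi.smul_apply, Pi.zero_apply, smul_eq_mul] at h1
      rw [smul_smul, smul_smul, ← add_smul, h1, zero_smul]
    let ℓ : Fin m → ℂ := fun i => c i • x - a i • y
    have hℓS : ℓ ∈ S := by
      refine ⟨x, hx, y, hy, a, c, hac, rfl, ?_⟩
      have h1 : ∀ i, e i * ℓ i = x * (c i • e i) - y * (a i • e i) := by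
        intro i
        simp only [ℓ]
        rw [mul_sub, mul_smul_comm, mul_smul_comm, mul_smul_comm, mul_smul_comm, mul_comm (e i) x,
          mul_comm (e i) y]
      rw [Finset.sum_congr rfl fun i _ => h1 i, Finset.sum_sub_distrib, ← Finset.mul_sum,
        ← Finset.mul_sum, hva, hvc, hxy, sub_self]
    have hmem : VV.mkQ ℓ ∈ Submodule.span QB T := by
      rw [hTspan]
      exact Submodule.subset_span ⟨ℓ, hℓS, rfl⟩
    have hmem2 : ∀ z ∈ Submodule.span QB T, ∃ ℓ' : Fin m → ℂ, VV.mkQ ℓ' = z ∧ ∀ i, ℓ' i ∈ F := by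
      intro z hz
      refine Submodule.span_induction (p := fun z _ => ∃ ℓ' : Fin m → ℂ, VV.mkQ ℓ' = z ∧
        ∀ i, ℓ' i ∈ F) ?_ ?_ ?_ ?_ hz
      · intro t ht
        exact ⟨lift ⟨t, ht⟩, hlift ⟨t, ht⟩, hliftF _⟩
      · exact ⟨0, map_zero _, fun i => F.zero_mem⟩
      · rintro z1 z2 _ _ ⟨l1, h1, h1'⟩ ⟨l2, h2, h2'⟩
        exact ⟨l1 + l2, by rw [map_add, h1, h2], fun i => F.add_mem (h1' i) (h2' i)⟩
      · rintro r z _ ⟨l1, h1, h1'⟩
        exact ⟨r • l1, by rw [map_smul, h1], fun i => F.smul_mem r (h1' i)⟩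
    obtain ⟨ℓ', h1, h2⟩ := hmem2 _ hmem
    have hℓF : ∀ i, ℓ i ∈ F := by
      intro i
      have h3 : ℓ - ℓ' ∈ VV := by
        rw [← Submodule.Quotient.mk_eq_zero VV, ← Submodule.mkQ_apply, map_sub, h1, sub_self]
      have h4 := Submodule.mem_pi.1 h3 i (Set.mem_univ _)
      have h5 : ℓ i = (ℓ - ℓ') i + ℓ' i := by simp
      rw [h5]
      exact F.add_mem (Submodule.mem_sup_left h4) (h2 i)
    obtain ⟨w, hw1, hw2⟩ := exists_dual_pair a c hac
    obtain ⟨w', hw1', hw2'⟩ := exists_dual_pair c a (by
      have h6 := hac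
      rw [LinearIndependent.pair_iff] at h6 ⊢
      intro s t hst
      obtain ⟨h7, h8⟩ := h6 t s (by rw [add_comm]; exact hst)
      exact ⟨h8, h7⟩)
    have hcomb : ∀ u : Fin m → QB, ∑ i, u i • ℓ i =
        (∑ i, u i * c i) • x - (∑ i, u i * a i) • y := by
      intro u
      simp only [ℓ, smul_sub, smul_smul, Finset.sum_sub_distrib, Finset.sum_smul]
    constructor
    · have h3 := hcomb w
      rw [hw1, hw2, one_smul, zero_smul, sub_zero] at h3
      rw [← h3]
      exact F.sum_mem fun i _ => F.smul_mem _ (hℓF i)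
    · have h3 := hcomb w'
      rw [hw1', hw2', one_smul, zero_smul, zero_sub] at h3
      have h4 : - y ∈ F := by
        rw [← h3]
        exact F.sum_mem fun i _ => F.smul_mem _ (hℓF i)
      exact (F.neg_mem_iff).1 h4

end Pool.Agent.V8H74.FE
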