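import Pool.Agent.V8H74.FE.Hull

/-!
# The hull of a rational space of logarithms
-/

set_option autoImplicit false

namespace Pool.Agent.V8H74.FE

open Module Finset
open Pool.Agent.H301R2.SSE (QB mem_QB Lt Lt_log)

/-- the rational space generated by the logarithms of the positive rational numbers -/
noncomputable def LogQ : Submodule ℚ ℝ := Submodule.span ℚ {x | ∃ q : ℚ, 0 < q ∧ x = Real.log q}

theorem LogQ_alg {x : ℝ} (hx : x ∈ LogQ) : IsAlgebraic ℚ (Complex.exp (x : ℂ)) := by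
  unfold LogQ at hx
  refine Submodule.span_induction (p := fun (x : ℝ) _ => IsAlgebraic ℚ (Complex.exp (x : ℂ)))
    ?_ ?_ ?_ ?_ hx
  · rintro x ⟨q, hq, rfl⟩
    have hq' : (0 : ℝ) < q := by exact_mod_cast hq
    rw [← Complex.ofReal_exp, Real.exp_log hq', Complex.ofReal_ratCast]
    exact isAlgebraic_algebraMap q
  · simpa using isAlgebraic_one
  · intro x y _ _ hx hy
    rw [Complex.ofReal_add, Complex.exp_add]
    exact hx.mul hy
  · intro r x _ hx
    have h1 : Complex.exp ((r • x : ℝ) : ℂ) ^ r.den = Complex.exp (x : ℂ) ^ (r.num) := by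
      rw [← Complex.exp_nat_mul, ← Complex.exp_int_mul]
      congr 1
      rw [Rat.smul_def, Complex.ofReal_mul, Complex.ofReal_ratCast, ← mul_assoc]
      congr 1
      have h2 : (r.den : ℂ) ≠ 0 := by exact_mod_cast r.den_nz
      have h3 : (r : ℂ) = (r.num : ℂ) / (r.den : ℂ) := by exact_mod_cast (Rat.num_div_den r).symm
      rw [h3]
      field_simp
    have h4 : IsAlgebraic ℚ (Complex.exp ((r • x : ℝ) : ℂ) ^ r.den) := by
      rw [h1]
      obtain ⟨n, hn | hn⟩ := Int.eq_nat_or_neg r.num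
      · rw [hn, zpow_natCast]
        exact hx.pow n
      · rw [hn, zpow_neg, zpow_natCast]
        exact (hx.pow n).inv
    exact (h4.of_pow r.den_pos)

theorem LogQ_Lt {x : ℝ} (hx : x ∈ LogQ) : (x : ℂ) ∈ Lt := Lt_log (LogQ_alg hx)

/-- Baker's theorem for `LogQ` -/
theorem baker {ι : Type} [Fintype ι] (f : ι → ℝ) (hf : ∀ i, f i ∈ LogQ)
    (hli : LinearIndependent ℚ f) : LinearIndependent QB (fun i => (f i : ℂ)) := by
  rw [Fintype.linearIndependent_iff]
  intro c hc i
  have h1 := Pool.Agent.H297R2.baker_inhom (fun i => (f i : ℂ)) (fun i => LogQ_alg (hf i)) ?_ 0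
    isAlgebraic_zero (fun i => (c i : ℂ)) (fun i => mem_QB.1 (c i).2) ?_
  · exact Subtype.ext (h1.2 i)
  · rw [Fintype.linearIndependent_iff] at hli ⊢
    intro g hg
    refine hli g ?_
    have h2 : ((∑ i, g i • f i : ℝ) : ℂ) = 0 := by
      rw [← hg, Complex.ofReal_sum]
      refine Finset.sum_congr rfl fun i _ => ?_
      rw [Rat.smul_def, Rat.smul_def, Complex.ofReal_mul, Complex.ofReal_ratCast]
    exact_mod_cast h2
  · rw [zero_add, ← hc]
    refine Finset.sum_congr rfl fun i _ => ?_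
    rw [Algebra.smul_def]
    rfl

/-- the first row of a singular matrix with independent rows and columns has independent entries -/
theorem row_li (M : Matrix (Fin 2) (Fin 2) ℝ) (hdet : M 0 0 * M 1 1 = M 0 1 * M 1 0)
    (hr : LinearIndependent ℚ (fun i : Fin 2 => fun j : Fin 2 => M i j))
    (hc : LinearIndependent ℚ (fun j : Fin 2 => fun i : Fin 2 => M i j)) :
    LinearIndependent ℚ (fun j : Fin 2 => M 0 j) := by
  have hne : (fun j : Fin 2 => M 0 j) ≠ 0 := hr.ne_zero 0
  rw [Fintype.linearIndependent_iff]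
  intro g hg
  rw [Fin.sum_univ_two] at hg
  refine Fintype.linearIndependent_iff.1 hc g ?_
  rw [Fin.sum_univ_two]
  funext i
  simp only [Pi.add_apply, Pi.smul_apply, Pi.zero_apply]
  have h1 : g 0 • M 1 0 + g 1 • M 1 1 = 0 := by
    by_cases h0 : M 0 0 = 0
    · have h01 : M 0 1 ≠ 0 := by
        intro h
        apply hne
        funext j
        fin_cases j
        · exact h0
        · exact h
      apply mul_left_cancel₀ h01
      rw [mul_add, mul_smul_comm, mul_smul_comm, ← hdet, mul_zero, mul_comm (M 0 0),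
        ← mul_smul_comm, mul_comm (M 0 1), ← mul_smul_comm, ← mul_add, hg, mul_zero]
    · apply mul_left_cancel₀ h0
      rw [mul_add, mul_smul_comm, mul_smul_comm, hdet, mul_zero, mul_comm (M 0 0),
        ← mul_smul_comm, mul_comm (M 0 1), ← mul_smul_comm, ← mul_add, hg, mul_zero]
  fin_cases i
  · exact hg
  · exact h1

/-- **The hull of a finite dimensional space of logarithms.** -/
theorem hullQ (V : Submodule ℚ ℝ) [FiniteDimensional ℚ V] (hV : V ≤ LogQ) :
    ∃ W : Submodule ℚ ℝ, V ≤ W ∧ W ≤ LogQ ∧ FiniteDimensional ℚ W ∧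
      finrank ℚ W ≤ finrank ℚ V ^ 2 ∧
      ∀ M : Matrix (Fin 2) (Fin 2) ℝ, (∀ i j, M i j ∈ LogQ) →
        LinearIndependent ℚ (fun i : Fin 2 => fun j : Fin 2 => M i j) →
        LinearIndependent ℚ (fun j : Fin 2 => fun i : Fin 2 => M i j) → M.det = 0 →
        ((∃ i, ∀ j, M i j ∈ V) ∨ (∃ j, ∀ i, M i j ∈ V)) → ∀ i j, M i j ∈ W := by
  classical
  let b := Module.finBasis ℚ V
  let e : Fin (finrank ℚ V) → ℂ := fun i => (((b i : V) : ℝ) : ℂ)
  let Vκ : Submodule QB ℂ := Submodule.span QB (Set.range e)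
  have hVκfin : FiniteDimensional QB Vκ := FiniteDimensional.span_of_finite QB (Set.finite_range e)
  have hVκ : ∀ v ∈ V, ((v : ℝ) : ℂ) ∈ Vκ := by
    intro v hv
    have h1 := congrArg (fun z : V => (((z : V) : ℝ) : ℂ)) (b.sum_repr ⟨v, hv⟩)
    simp only [Submodule.coe_sum, Submodule.coe_smul] at h1
    rw [← h1, Complex.ofReal_sum]
    refine Vκ.sum_mem fun i _ => ?_
    rw [Rat.smul_def, Complex.ofReal_mul, Complex.ofReal_ratCast]
    have h2 : ((b.repr ⟨v, hv⟩ i : ℚ) : ℂ) * ((b i : ℝ) : ℂ) =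
        ((b.repr ⟨v, hv⟩ i : ℚ) : QB) • e i := by
      rw [Algebra.smul_def]
      congr 1
    rw [h2]
    exact Vκ.smul_mem _ (Submodule.subset_span ⟨i, rfl⟩)
  have hVκL : Vκ ≤ Lt := by
    rw [Submodule.span_le]
    rintro _ ⟨i, rfl⟩
    exact LogQ_Lt (hV (b i).2)
  have hVκr : finrank QB Vκ ≤ finrank ℚ V := by
    have h1 := finrank_range_le_card (R := QB) e
    rw [Set.finrank, Fintype.card_fin] at h1
    exact h1
  obtain ⟨F, hVF, hFL, hFfin, hFr, hF⟩ := hull Vκ hVκL
  let W : Submodule ℚ ℝ :=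
    { carrier := {x | x ∈ LogQ ∧ (x : ℂ) ∈ F}
      add_mem' := by
        rintro x y ⟨h1, h2⟩ ⟨h3, h4⟩
        exact ⟨LogQ.add_mem h1 h3, by rw [Complex.ofReal_add]; exact F.add_mem h2 h4⟩
      zero_mem' := ⟨LogQ.zero_mem, by rw [Complex.ofReal_zero]; exact F.zero_mem⟩
      smul_mem' := by
        rintro c x ⟨h1, h2⟩
        refine ⟨LogQ.smul_mem c h1, ?_⟩
        have h3 : ((c • x : ℝ) : ℂ) = (c : QB) • (x : ℂ) := by
          rw [Rat.smul_def, Complex.ofReal_mul, Complex.ofReal_ratCast, Algebra.smul_def]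
          congr 1
        rw [h3]
        exact F.smul_mem _ h2 }
  have hWL : W ≤ LogQ := fun x hx => hx.1
  have hWrank : Module.rank ℚ W ≤ (finrank QB F : ℕ) := by
    apply rank_le
    intro s hs
    have h1 : LinearIndependent ℚ (fun i : s => ((i : W) : ℝ)) :=
      hs.map' W.subtype W.ker_subtype
    have h2 := baker (fun i : s => ((i : W) : ℝ)) (fun i => hWL (i : W).2) h1
    have h3 : LinearIndependent QB (fun i : s => (⟨(((i : W) : ℝ) : ℂ), (i : W).2.2⟩ : F)) := by
      apply LinearIndependent.of_comp F.subtype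
      exact h2
    have h4 := h3.fintype_card_le_finrank
    rwa [Fintype.card_coe] at h4
  have hWfin : FiniteDimensional ℚ W := by
    rw [FiniteDimensional, ← Module.rank_lt_aleph0_iff]
    exact lt_of_le_of_lt hWrank Cardinal.natCast_lt_aleph0
  have hWr : finrank ℚ W ≤ finrank QB F := Module.finrank_le_of_rank_le hWrank
  -- the case of the first row
  have hrow : ∀ M : Matrix (Fin 2) (Fin 2) ℝ, (∀ i j, M i j ∈ LogQ) →
      LinearIndependent ℚ (fun i : Fin 2 => fun j : Fin 2 => M i j) →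
      LinearIndependent ℚ (fun j : Fin 2 => fun i : Fin 2 => M i j) →
      M 0 0 * M 1 1 = M 0 1 * M 1 0 → (∀ j, M 0 j ∈ V) → ∀ i j, M i j ∈ W := by
    intro M hM hr hc hdet h0
    have h1 := row_li M hdet hr hc
    have h2 := baker (fun j => M 0 j) (fun j => hM 0 j) h1
    have h3 : LinearIndependent QB ![((M 0 0 : ℝ) : ℂ), ((M 0 1 : ℝ) : ℂ)] := by
      have h4 : ![((M 0 0 : ℝ) : ℂ), ((M 0 1 : ℝ) : ℂ)] = fun j => ((M 0 j : ℝ) : ℂ) := by
        funext j
        fin_cases j <;> rfl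
      rw [h4]
      exact h2
    have h5 := hF (M 1 0 : ℂ) (LogQ_Lt (hM 1 0)) (M 1 1 : ℂ) (LogQ_Lt (hM 1 1)) (M 0 0 : ℂ)
      (hVκ _ (h0 0)) (M 0 1 : ℂ) (hVκ _ (h0 1)) h3 (by
        rw [← Complex.ofReal_mul, ← Complex.ofReal_mul, mul_comm (M 1 0), mul_comm (M 1 1), hdet])
    have h6 : ∀ j, M 0 j ∈ W := fun j => ⟨hM 0 j, hVF (hVκ _ (h0 j))⟩
    have h7 : ∀ j, M 1 j ∈ W := by
      intro j
      fin_cases j
      · exact ⟨hM 1 0, h5.1⟩
      · exact ⟨hM 1 1, h5.2⟩
    intro i j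
    fin_cases i
    · exact h6 j
    · exact h7 j
  -- the case of a row
  have hrows : ∀ M : Matrix (Fin 2) (Fin 2) ℝ, (∀ i j, M i j ∈ LogQ) →
      LinearIndependent ℚ (fun i : Fin 2 => fun j : Fin 2 => M i j) →
      LinearIndependent ℚ (fun j : Fin 2 => fun i : Fin 2 => M i j) →
      M 0 0 * M 1 1 = M 0 1 * M 1 0 → (∃ i, ∀ j, M i j ∈ V) → ∀ i j, M i j ∈ W := by
    rintro M hM hr hc hdet ⟨i, hi⟩
    fin_cases i
    · exact hrow M hM hr hc hdet hi
    · let σ : Equiv.Perm (Fin 2) := Equiv.swap 0 1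
      have h1 := hrow (fun i j => M (σ i) j) (fun i j => hM _ _)
        (hr.comp σ σ.injective) ?_ ?_ ?_
      · intro i j
        have h2 := h1 (σ i) j
        simpa [σ] using h2
      · have h2 := hc.map' (LinearMap.funLeft ℚ ℝ σ)
          (LinearMap.ker_eq_bot.2 (LinearMap.funLeft_injective_of_surjective ℚ ℝ σ σ.surjective))
        exact h2
      · simp only [σ, Equiv.swap_apply_left, Equiv.swap_apply_right]
        rw [mul_comm, ← hdet, mul_comm]
      · intro j
        simp only [σ, Equiv.swap_apply_left]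
        exact hi j
  refine ⟨W, fun v hv => ⟨hV hv, hVF (hVκ v hv)⟩, hWL, hWfin,
    (hWr.trans hFr).trans (Nat.pow_le_pow_left hVκr 2), ?_⟩
  rintro M hM hr hc hdet (h | ⟨j, hj⟩)
  · rw [Matrix.det_fin_two, sub_eq_zero] at hdet
    exact hrows M hM hr hc hdet h
  · rw [Matrix.det_fin_two, sub_eq_zero] at hdet
    have h1 := hrows M.transpose (fun i j => hM j i) hc hr (by
      simp only [Matrix.transpose_apply]
      rw [hdet, mul_comm]) ⟨j, fun i => hj i⟩
    exact fun i j => h1 j i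

end Pool.Agent.V8H74.FE
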